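import Pool.Agent.Lib.HC.Defs
import Pool.Agent.Lib.CMT.Iface
import Pool.Agent.Lib.CMT.B.Br

/-!
# PROJECT HC, part K: the compact ball quotient as a `CMan 2`
-/

set_option autoImplicit false

open MeasureTheory

noncomputable section

namespace HC

open CMT

variable {F : Type} [Field F] [NumberField F]

/-- `(Fin 2 → ℂ) ≃ ℂ × ℂ`. -/
def e2c : (Fin 2 → ℂ) ≃L[ℂ] ℂ × ℂ := ContinuousLinearEquiv.finTwoArrow ℂ ℂ

theorem e2c_apply (z : Fin 2 → ℂ) : e2c z = (z 0, z 1) := rfl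

/-- The properties of the group of `T2`. -/
structure Grp (D : Dat F) (G : Subgroup (SG D)) : Prop where
  iso : ∀ g ∈ G, IsIso D g
  free : ∀ g ∈ G, ∀ z ∈ Ball D, CMT.act D g z = z → g = 1
  disc : ∀ C : Set (ℂ × ℂ), IsCompact C → C ⊆ Ball D → {g : SG D | g ∈ G ∧ ∃ z ∈ C, CMT.act D g z ∈ C}.Finite
  cpt : ∃ C : Set (ℂ × ℂ), IsCompact C ∧ C ⊆ Ball D ∧ ∀ z ∈ Ball D, ∃ g ∈ G, CMT.act D g z ∈ C

theorem isOpen_ball (D : Dat F) : IsOpen (Ball D) := by
  have h : Continuous fun z : ℂ × ℂ => ‖z.1‖ ^ 2 + ‖z.2‖ ^ 2 := by fun_prop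
  exact h.isOpen_preimage _ isOpen_Iio

/-- The ball quotient. -/
def ballMan (D : Dat F) (G : Subgroup (SG D)) (h : Grp D G) : CMan 2 where
  D := e2c ⁻¹' Ball D
  Γ := G
  act g z := e2c.symm (CMT.act D g.1 (e2c z))
  isOpen := (isOpen_ball D).preimage e2c.continuous
  maps g z hz := by
    show e2c (e2c.symm (CMT.act D g.1 (e2c z))) ∈ Ball D
    rw [ContinuousLinearEquiv.apply_symm_apply]
    exact B.act_mem_Ball D (h.iso g g.2) hz
  one z _ := by
    show e2c.symm (CMT.act D 1 (e2c z)) = z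
    rw [B.act_one_Ball, ContinuousLinearEquiv.symm_apply_apply]
  mul g k z hz := by
    show e2c.symm (CMT.act D (g.1 * k.1) (e2c z)) = e2c.symm (CMT.act D g.1 (e2c (e2c.symm (CMT.act D k.1 (e2c z)))))
    rw [ContinuousLinearEquiv.apply_symm_apply, B.act_mul_Ball D g.1 (h.iso k k.2) hz]
  hol g := by
    refine e2c.symm.differentiable.comp_differentiableOn ?_
    intro z hz
    have h1 := (B.hasFDerivAt_act_Ball D (h.iso g g.2) hz).comp z (e2c.toContinuousLinearMap.hasFDerivAt (x := z))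
    exact h1.differentiableAt.differentiableWithinAt
  free g z hz hgz := by
    have h1 : CMT.act D g.1 (e2c z) = e2c z := by
      have h2 := congrArg e2c hgz
      rwa [ContinuousLinearEquiv.apply_symm_apply] at h2
    exact Subtype.ext (h.free g.1 g.2 _ hz h1)
  disc C hC hCc := by
    have h1 := h.disc (e2c '' C) (hCc.image e2c.continuous) (by
      rintro _ ⟨z, hz, rfl⟩
      exact hC hz)
    refine Set.Finite.of_finite_image (f := fun g : G => g.1) (h1.subset ?_) Subtype.val_injective.injOn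
    rintro _ ⟨g, ⟨_, ⟨z, hz, rfl⟩, hgz⟩, rfl⟩
    refine ⟨g.2, e2c z, ⟨z, hz, rfl⟩, ⟨_, hgz, ?_⟩⟩
    exact ContinuousLinearEquiv.apply_symm_apply _ _
  cpt := by
    obtain ⟨C, hC, hCB, hcov⟩ := h.cpt
    refine ⟨e2c.symm '' C, ?_, hC.image e2c.symm.continuous, ?_⟩
    · rintro _ ⟨z, hz, rfl⟩
      show e2c (e2c.symm z) ∈ Ball D
      rw [ContinuousLinearEquiv.apply_symm_apply]
      exact hCB hz
    · intro z hz
      obtain ⟨g, hg, hgz⟩ := hcov (e2c z) hz
      exact ⟨⟨g, hg⟩, CMT.act D g (e2c z), hgz, rfl⟩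

/-- The weights. -/
theorem ballMan_weight (D : Dat F) (G : Subgroup (SG D)) (h : Grp D G) {χ : ℂ × ℂ → ℝ} (hχ : CMT.IsWeight D G χ) :
    IsWeight (ballMan D G h) (fun z => χ (e2c z)) where
  cont := hχ.1.comp e2c.continuous
  nonneg z := hχ.2.1 _
  cpt := hχ.2.2.1.comp_homeomorph e2c.toHomeomorph
  supp := by
    have h1 : tsupport (fun z => χ (e2c z)) ⊆ e2c ⁻¹' tsupport χ := by
      refine closure_minimal ?_ ((isClosed_tsupport χ).preimage e2c.continuous)
      intro z hz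
      exact subset_tsupport χ hz
    exact h1.trans fun z hz => hχ.2.2.2.1 hz
  sum z hz := by
    have h1 := hχ.2.2.2.2 (e2c z) hz
    have h2 : (fun g : G => χ (e2c (e2c.symm (CMT.act D g.1 (e2c z))))) = fun g : G => χ (CMT.act D g.1 (e2c z)) := by
      funext g
      rw [ContinuousLinearEquiv.apply_symm_apply]
    show HasSum (fun g : G => χ (e2c (e2c.symm (CMT.act D g.1 (e2c z))))) 1
    rw [h2]
    exact h1

/-- The integrals. -/
theorem ballMan_int (f : ℂ × ℂ → ℂ) : ∫ z : Fin 2 → ℂ, f (e2c z) = ∫ z : ℂ × ℂ, f z := by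
  have h := (MeasureTheory.volume_preserving_finTwoArrow ℂ).integral_comp
    (MeasurableEquiv.finTwoArrow).measurableEmbedding f
  exact h

end HC
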