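import Pool.Agent.Lib.HC.K.Cls
import Pool.Agent.Lib.HC.K.Man
import Pool.Agent.Lib.CMT.J.Iface

/-!
# PROJECT HC, part K: the class of the ball quotient, evaluated on two holomorphic and two antiholomorphic forms
-/

set_option autoImplicit false

open MeasureTheory ComplexConjugate

noncomputable section

namespace HC

open CMT

/-- The determinant. -/
theorem det_four (p0 p1 p2 p3 q0 q1 q2 q3 : ℂ) :
    Matrix.det (!![p0, Complex.I * p0, q0, Complex.I * q0; p1, Complex.I * p1, q1, Complex.I * q1;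
      p2, -Complex.I * p2, q2, -Complex.I * q2; p3, -Complex.I * p3, q3, -Complex.I * q3] :
        Matrix (Fin 4) (Fin 4) ℂ) = 4 * ((p0 * q1 - q0 * p1) * (p2 * q3 - q2 * p3)) := by
  rw [Matrix.det_succ_row_zero]
  simp [Fin.sum_univ_succ, Matrix.det_fin_three, Fin.succAbove]
  ring_nf
  simp only [Complex.I_sq]
  ring

variable {F : Type} [Field F] [NumberField F]

/-- The derivative of a linear coordinate. -/
theorem coord_fderiv {V : Type} [NormedAddCommGroup V] [NormedSpace ℂ V] [FiniteDimensional ℂ V] {U : Set (ℂ × ℂ)}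
    (hU : IsOpen U) {W : ℂ × ℂ → V} (hW : DifferentiableOn ℂ W U) (ζ : V →ₗ[ℝ] ℂ) {f : ℂ × ℂ → ℂ}
    (hf : DifferentiableOn ℝ f U) (he : ∀ z ∈ U, ζ (W z) = f z) {z : ℂ × ℂ} (hz : z ∈ U) (v : ℂ × ℂ) :
    ζ (fderiv ℂ W z v) = fderiv ℝ f z v := by
  haveI : FiniteDimensional ℝ V := FiniteDimensional.complexToReal V
  have h1 : HasFDerivAt W ((fderiv ℂ W z).restrictScalars ℝ) z :=
    (hW.differentiableAt (hU.mem_nhds hz)).hasFDerivAt.restrictScalars ℝ
  have h2 : HasFDerivAt (fun z => (LinearMap.toContinuousLinearMap ζ) (W z))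
      ((LinearMap.toContinuousLinearMap ζ).comp ((fderiv ℂ W z).restrictScalars ℝ)) z :=
    (LinearMap.toContinuousLinearMap ζ).hasFDerivAt.comp z h1
  have h3 : (fun z => (LinearMap.toContinuousLinearMap ζ) (W z)) =ᶠ[nhds z] f := by
    filter_upwards [hU.mem_nhds hz] with y hy
    exact he y hy
  have h4 := h3.fderiv_eq (𝕜 := ℝ)
  rw [h2.fderiv] at h4
  rw [← h4]
  rfl

theorem fderiv_conj {U : Set (ℂ × ℂ)} (hU : IsOpen U) {f : ℂ × ℂ → ℂ} (hf : DifferentiableOn ℂ f U) {z : ℂ × ℂ}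
    (hz : z ∈ U) (v : ℂ × ℂ) : fderiv ℝ (fun z => conj (f z)) z v = conj (fderiv ℂ f z v) := by
  have h1 : HasFDerivAt f ((fderiv ℂ f z).restrictScalars ℝ) z :=
    (hf.differentiableAt (hU.mem_nhds hz)).hasFDerivAt.restrictScalars ℝ
  have h2 := (Complex.conjCLE.toContinuousLinearMap.hasFDerivAt (x := f z)).comp z h1
  have h3 : fderiv ℝ (fun z => conj (f z)) z =
      (Complex.conjCLE.toContinuousLinearMap).comp ((fderiv ℂ f z).restrictScalars ℝ) := h2.fderiv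
  rw [h3]
  rfl

theorem fderiv_real {U : Set (ℂ × ℂ)} (hU : IsOpen U) {f : ℂ × ℂ → ℂ} (hf : DifferentiableOn ℂ f U) {z : ℂ × ℂ}
    (hz : z ∈ U) (v : ℂ × ℂ) : fderiv ℝ f z v = fderiv ℂ f z v := by
  have h1 : HasFDerivAt f ((fderiv ℂ f z).restrictScalars ℝ) z :=
    (hf.differentiableAt (hU.mem_nhds hz)).hasFDerivAt.restrictScalars ℝ
  rw [h1.fderiv]
  rfl

theorem e2c_frame (j : Fin 4) : e2c (frame 2 j) = (![((1 : ℂ), (0 : ℂ)), (Complex.I, 0), (0, 1), (0, Complex.I)] : Fin 4 → ℂ × ℂ) j := by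
  fin_cases j
  · simp [e2c_apply, frame]
  · simp [e2c_apply, frame]
  · simp [e2c_apply, frame]
  · simp [e2c_apply, frame]

/-- **Part K.** -/
theorem K_main (D : Dat F) (G : Subgroup (SG D)) (h : Grp D G) {T : AV} (W : ℂ × ℂ → T.V)
    (hW : DifferentiableOn ℂ W (Ball D)) (hper : ∀ g ∈ G, ∀ z ∈ Ball D, W (CMT.act D g z) - W z ∈ T.L)
    (ζ : Fin 4 → (T.V →ₗ[ℝ] ℂ)) (w : Fin 4 → ℂ × ℂ → ℂ) (hw : ∀ i, DifferentiableOn ℂ (w i) (Ball D))
    (h0 : ∀ z ∈ Ball D, ζ 0 (W z) = w 0 z) (h1 : ∀ z ∈ Ball D, ζ 1 (W z) = w 1 z)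
    (h2 : ∀ z ∈ Ball D, ζ 2 (W z) = conj (w 2 z)) (h3 : ∀ z ∈ Ball D, ζ 3 (W z) = conj (w 3 z))
    {χ : ℂ × ℂ → ℝ} (hχ : CMT.IsWeight D G χ)
    (hne : ∫ z, ((χ z : ℝ) : ℂ) * (wedge (CMT.J.grad (w 0) z) (CMT.J.grad (w 1) z) *
      conj (wedge (CMT.J.grad (w 2) z) (CMT.J.grad (w 3) z))) ≠ 0) :
    ∃ c : Hlg T 4, Alg T 4 c ∧ c ζ ≠ 0 := by
  have hB := isOpen_ball D
  have hmap : IsMap (ballMan D G h) T (fun z => W (e2c z)) := by
    refine ⟨?_, ?_⟩
    · exact hW.comp e2c.differentiable.differentiableOn fun z hz => hz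
    · intro g z hz
      show W (e2c (e2c.symm (CMT.act D g.1 (e2c z)))) - W (e2c z) ∈ T.L
      rw [ContinuousLinearEquiv.apply_symm_apply]
      exact hper g.1 g.2 _ hz
  obtain ⟨c, hc, hA⟩ := exists_cls (ballMan D G h) (fun z => W (e2c z)) hmap _ (ballMan_weight D G h hχ)
  refine ⟨c, hA, ?_⟩
  rw [hc ζ]
  -- the real derivatives of the coordinates
  have hwr : ∀ i, DifferentiableOn ℝ (w i) (Ball D) := fun i => (hw i).restrictScalars ℝ
  have hwc : ∀ i, DifferentiableOn ℝ (fun z => conj (w i z)) (Ball D) := fun i z hz =>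
    (Complex.conjCLE.toContinuousLinearMap.differentiableAt.comp z
      ((hwr i).differentiableAt (hB.mem_nhds hz))).differentiableWithinAt
  have hhol : ∀ i, (∀ z ∈ Ball D, ζ i (W z) = w i z) → ∀ z ∈ Ball D, ∀ v, ζ i (fderiv ℂ W z v) = fderiv ℂ (w i) z v := by
    intro i hi z hz v
    rw [coord_fderiv hB hW (ζ i) (hwr i) hi hz v, fderiv_real hB (hw i) hz v]
  have hanti : ∀ i, (∀ z ∈ Ball D, ζ i (W z) = conj (w i z)) → ∀ z ∈ Ball D, ∀ v,
      ζ i (fderiv ℂ W z v) = conj (fderiv ℂ (w i) z v) := by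
    intro i hi z hz v
    rw [coord_fderiv hB hW (ζ i) (hwc i) hi hz v, fderiv_conj hB (hw i) hz v]
  have hI1 : ((Complex.I, 0) : ℂ × ℂ) = Complex.I • ((1, 0) : ℂ × ℂ) := by simp
  have hI2 : ((0, Complex.I) : ℂ × ℂ) = Complex.I • ((0, 1) : ℂ × ℂ) := by simp
  have hdet : ∀ z : Fin 2 → ℂ, e2c z ∈ Ball D → (fmat (fun z => W (e2c z)) ζ z).det =
      4 * (wedge (CMT.J.grad (w 0) (e2c z)) (CMT.J.grad (w 1) (e2c z)) *
        conj (wedge (CMT.J.grad (w 2) (e2c z)) (CMT.J.grad (w 3) (e2c z)))) := by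
    intro z hz
    have hfd : ∀ v, fderiv ℂ (fun z => W (e2c z)) z v = fderiv ℂ W (e2c z) (e2c v) := by
      intro v
      have h4 := ((hW.differentiableAt (hB.mem_nhds hz)).hasFDerivAt).comp z
        (e2c.toContinuousLinearMap.hasFDerivAt (x := z))
      have h5 : fderiv ℂ (fun z => W (e2c z)) z = (fderiv ℂ W (e2c z)).comp e2c.toContinuousLinearMap := h4.fderiv
      rw [h5]
      rfl
    have hM : fmat (fun z => W (e2c z)) ζ z =
        (!![fderiv ℂ (w 0) (e2c z) (1, 0), Complex.I * fderiv ℂ (w 0) (e2c z) (1, 0), fderiv ℂ (w 0) (e2c z) (0, 1),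
            Complex.I * fderiv ℂ (w 0) (e2c z) (0, 1);
          fderiv ℂ (w 1) (e2c z) (1, 0), Complex.I * fderiv ℂ (w 1) (e2c z) (1, 0), fderiv ℂ (w 1) (e2c z) (0, 1),
            Complex.I * fderiv ℂ (w 1) (e2c z) (0, 1);
          conj (fderiv ℂ (w 2) (e2c z) (1, 0)), -Complex.I * conj (fderiv ℂ (w 2) (e2c z) (1, 0)),
            conj (fderiv ℂ (w 2) (e2c z) (0, 1)), -Complex.I * conj (fderiv ℂ (w 2) (e2c z) (0, 1));
          conj (fderiv ℂ (w 3) (e2c z) (1, 0)), -Complex.I * conj (fderiv ℂ (w 3) (e2c z) (1, 0)),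
            conj (fderiv ℂ (w 3) (e2c z) (0, 1)), -Complex.I * conj (fderiv ℂ (w 3) (e2c z) (0, 1))] :
          Matrix (Fin 4) (Fin 4) ℂ) := by
      have hent : ∀ i j, fmat (fun z => W (e2c z)) ζ z i j = ζ i (fderiv ℂ W (e2c z) (e2c (frame 2 j))) := by
        intro i j
        show ζ i (fderiv ℂ (fun z => W (e2c z)) z (frame 2 j)) = _
        rw [hfd]
      have hr0 := hhol 0 h0 _ hz
      have hr1 := hhol 1 h1 _ hz
      have hr2 := hanti 2 h2 _ hz
      have hr3 := hanti 3 h3 _ hz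
      have gI1 : ∀ i, fderiv ℂ (w i) (e2c z) (Complex.I, 0) = Complex.I * fderiv ℂ (w i) (e2c z) (1, 0) := by
        intro i
        rw [hI1, map_smul, smul_eq_mul]
      have gI2 : ∀ i, fderiv ℂ (w i) (e2c z) (0, Complex.I) = Complex.I * fderiv ℂ (w i) (e2c z) (0, 1) := by
        intro i
        rw [hI2, map_smul, smul_eq_mul]
      refine Matrix.ext fun i j => ?_
      rw [hent, e2c_frame]
      fin_cases i <;> fin_cases j <;> simp [hr0, hr1, hr2, hr3, gI1, gI2]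
    rw [hM, det_four]
    simp only [wedge, CMT.J.grad, map_sub, map_mul]
  -- the integral
  have hint : ∫ z : Fin 2 → ℂ, (((fun z => χ (e2c z)) z : ℝ) : ℂ) * (fmat (fun z => W (e2c z)) ζ z).det =
      4 * ∫ z : ℂ × ℂ, ((χ z : ℝ) : ℂ) * (wedge (CMT.J.grad (w 0) z) (CMT.J.grad (w 1) z) *
        conj (wedge (CMT.J.grad (w 2) z) (CMT.J.grad (w 3) z))) := by
    rw [← integral_const_mul, ← ballMan_int]
    refine integral_congr_ae (Filter.Eventually.of_forall fun z => ?_)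
    by_cases hz : e2c z ∈ Ball D
    · simp only
      rw [hdet z hz]
      ring
    · have h4 : χ (e2c z) = 0 := by
        by_contra h5
        exact hz (hχ.2.2.2.1 (subset_tsupport _ h5))
      simp only
      rw [h4]
      simp
  rw [hint]
  exact mul_ne_zero (by norm_num) hne

end HC
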