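import Mathlib

/-!
# PROJECT HC, part K: the directional derivatives of a holomorphic function of several variables are continuous
-/

set_option autoImplicit false

open Metric Set Complex

noncomputable section

namespace HC

variable {E' E : Type*} [NormedAddCommGroup E'] [NormedSpace ℂ E'] [NormedAddCommGroup E] [NormedSpace ℂ E]
  [CompleteSpace E]

/-- Cauchy's formula for a directional derivative. -/
theorem fderiv_eq_circle {f : E' → E} {U : Set E'} (hU : IsOpen U) (hf : DifferentiableOn ℂ f U) {z v : E'} {r : ℝ}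
    (hr : 0 < r) (hz : ∀ ζ : ℂ, ‖ζ‖ ≤ r → z + ζ • v ∈ U) :
    fderiv ℂ f z v = (2 * Real.pi * I : ℂ)⁻¹ • ∮ ζ in C(0, r), ((ζ - 0) ^ 2)⁻¹ • f (z + ζ • v) := by
  have hline : Continuous fun ζ : ℂ => z + ζ • v := by fun_prop
  have hV : IsOpen ((fun ζ : ℂ => z + ζ • v) ⁻¹' U) := hU.preimage hline
  have hc : closedBall (0 : ℂ) r ⊆ (fun ζ : ℂ => z + ζ • v) ⁻¹' U := by
    intro ζ hζ
    rw [mem_closedBall_zero_iff] at hζ
    exact hz ζ hζ
  have hd : DifferentiableOn ℂ (fun ζ : ℂ => f (z + ζ • v)) ((fun ζ : ℂ => z + ζ • v) ⁻¹' U) := by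
    refine hf.comp ?_ fun ζ hζ => hζ
    exact (Differentiable.add (differentiable_const _) (differentiable_id.smul_const v)).differentiableOn
  rw [two_pi_I_inv_smul_circleIntegral_sub_sq_inv_smul_of_differentiable hV hc hd (mem_ball_self hr)]
  have hz0 : z + (0 : ℂ) • v ∈ U := hz 0 (by rw [norm_zero]; exact hr.le)
  have hz1 : z ∈ U := by simpa using hz0
  have h1 : HasFDerivAt f (fderiv ℂ f z) (z + (0 : ℂ) • v) := by
    have h2 := (hf.differentiableAt (hU.mem_nhds hz1)).hasFDerivAt
    simpa using h2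
  have h3 : HasDerivAt (fun ζ : ℂ => z + ζ • v) v 0 := by
    have h4 : HasDerivAt (fun ζ : ℂ => ζ • v) ((1 : ℂ) • v) 0 := (hasDerivAt_id (0 : ℂ)).smul_const v
    rw [one_smul] at h4
    exact h4.const_add z
  have h5 := h1.comp_hasDerivAt (0 : ℂ) h3
  exact h5.deriv.symm

/-- **Continuity of the directional derivative.** -/
theorem continuousOn_fderiv_apply {f : E' → E} {U : Set E'} (hU : IsOpen U) (hf : DifferentiableOn ℂ f U) (v : E') :
    ContinuousOn (fun z => fderiv ℂ f z v) U := by
  intro z0 hz0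
  obtain ⟨ε, hε, hball⟩ := Metric.isOpen_iff.1 hU z0 hz0
  set r : ℝ := ε / (2 * (‖v‖ + 1)) with hr
  have hv1 : 0 < ‖v‖ + 1 := by positivity
  have hr0 : 0 < r := by positivity
  have hin : ∀ z ∈ ball z0 (ε / 2), ∀ ζ : ℂ, ‖ζ‖ ≤ r → z + ζ • v ∈ U := by
    intro z hz ζ hζ
    apply hball
    rw [mem_ball, dist_eq_norm] at hz ⊢
    have h1 : z + ζ • v - z0 = (z - z0) + ζ • v := by abel
    rw [h1]
    have h2 : ‖ζ • v‖ ≤ r * ‖v‖ := by
      rw [norm_smul]
      exact mul_le_mul_of_nonneg_right hζ (norm_nonneg _)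
    have h3 : r * ‖v‖ ≤ ε / 2 := by
      rw [hr, div_mul_eq_mul_div, div_le_div_iff₀ (by positivity) (by norm_num)]
      nlinarith [norm_nonneg v]
    calc ‖(z - z0) + ζ • v‖ ≤ ‖z - z0‖ + ‖ζ • v‖ := norm_add_le _ _
      _ < ε / 2 + ε / 2 := by linarith
      _ = ε := by ring
  have hcont : ContinuousOn (fun z => (2 * Real.pi * I : ℂ)⁻¹ • ∮ ζ in C(0, r), ((ζ - 0) ^ 2)⁻¹ • f (z + ζ • v))
      (ball z0 (ε / 2)) := by
    rw [continuousOn_iff_continuous_restrict]
    refine continuous_const.smul ?_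
    unfold circleIntegral
    have hj : Continuous (fun p : ball z0 (ε / 2) × ℝ => deriv (circleMap 0 r) p.2 •
        (((circleMap 0 r p.2 - 0) ^ 2)⁻¹ • f (p.1.1 + circleMap 0 r p.2 • v))) := by
      have hcm : Continuous (fun p : ball z0 (ε / 2) × ℝ => circleMap 0 r p.2) :=
        (continuous_circleMap 0 r).comp continuous_snd
      refine Continuous.smul ?_ (Continuous.smul ?_ ?_)
      · simp only [deriv_circleMap]
        exact hcm.mul continuous_const
      · refine ((hcm.sub continuous_const).pow 2).inv₀ ?_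
        intro p h0
        have h1 : circleMap 0 r p.2 - 0 = 0 := pow_eq_zero_iff (two_ne_zero) |>.1 h0
        rw [sub_zero] at h1
        exact circleMap_ne_center hr0.ne' h1
      · refine hf.continuousOn.comp_continuous ?_ ?_
        · exact (continuous_subtype_val.comp continuous_fst).add (hcm.smul continuous_const)
        · intro p
          refine hin p.1.1 p.1.2 _ ?_
          rw [norm_circleMap_zero, abs_of_pos hr0]
    exact intervalIntegral.continuous_parametric_intervalIntegral_of_continuous'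
      (f := fun (z : ball z0 (ε / 2)) θ => deriv (circleMap 0 r) θ •
        (((circleMap 0 r θ - 0) ^ 2)⁻¹ • f (z.1 + circleMap 0 r θ • v))) hj 0 (2 * Real.pi)
  have hmem : ball z0 (ε / 2) ∈ nhds z0 := ball_mem_nhds _ (by positivity)
  have h1 : ContinuousAt (fun z => fderiv ℂ f z v) z0 := by
    refine (hcont.continuousAt hmem).congr ?_
    filter_upwards [hmem] with z hz
    exact (fderiv_eq_circle hU hf hr0 fun ζ hζ => hin z hz ζ hζ).symm
  exact h1.continuousWithinAt

end HC
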