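import Pool.Agent.Lib.HC.Defs
import Pool.Agent.Lib.HC.K.Osg

/-!
# PROJECT HC, part K: the class of the image of `D / Γ` exists
-/

set_option autoImplicit false

open MeasureTheory

noncomputable section

namespace HC

/-- The matrix of the values of the forms on the frame. -/
def fmat {T : AV} {k : ℕ} (w : (Fin k → ℂ) → T.V) (a : Fin (2 * k) → (T.V →ₗ[ℝ] ℂ)) (z : Fin k → ℂ) :
    Matrix (Fin (2 * k)) (Fin (2 * k)) ℂ := Matrix.of fun i j => a i (fderiv ℂ w z (frame k j))

theorem fmat_update {T : AV} {k : ℕ} (w : (Fin k → ℂ) → T.V) (a : Fin (2 * k) → (T.V →ₗ[ℝ] ℂ)) (i : Fin (2 * k))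
    (x : T.V →ₗ[ℝ] ℂ) (z : Fin k → ℂ) :
    fmat w (Function.update a i x) z = (fmat w a z).updateRow i (fun j => x (fderiv ℂ w z (frame k j))) := by
  ext i' j
  by_cases h : i' = i
  · subst h
    rw [Matrix.updateRow_self]
    simp [fmat]
  · rw [Matrix.updateRow_ne h]
    simp [fmat, Function.update_of_ne h]

/-- `a (dw)` is continuous. -/
theorem continuousOn_entry {T : AV} {k : ℕ} {D : Set (Fin k → ℂ)} (hD : IsOpen D) {w : (Fin k → ℂ) → T.V}
    (hw : DifferentiableOn ℂ w D) (a : T.V →ₗ[ℝ] ℂ) (v : Fin k → ℂ) :
    ContinuousOn (fun z => a (fderiv ℂ w z v)) D := by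
  haveI : FiniteDimensional ℝ T.V := FiniteDimensional.complexToReal T.V
  haveI : CompleteSpace T.V := FiniteDimensional.complete ℂ T.V
  exact (a.continuous_of_finiteDimensional).comp_continuousOn (continuousOn_fderiv_apply hD hw v)

theorem continuousOn_det {T : AV} {k : ℕ} {D : Set (Fin k → ℂ)} (hD : IsOpen D) {w : (Fin k → ℂ) → T.V}
    (hw : DifferentiableOn ℂ w D) (a : Fin (2 * k) → (T.V →ₗ[ℝ] ℂ)) :
    ContinuousOn (fun z => (fmat w a z).det) D := by
  rw [continuousOn_iff_continuous_restrict]
  refine Continuous.matrix_det ?_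
  refine continuous_matrix fun i j => ?_
  exact continuousOn_iff_continuous_restrict.1 (continuousOn_entry hD hw (a i) (frame k j))

/-- A weight times a continuous function is integrable. -/
theorem integrable_wt {k : ℕ} {M : CMan k} {χ : (Fin k → ℂ) → ℝ} (hχ : IsWeight M χ) {f : (Fin k → ℂ) → ℂ}
    (hf : ContinuousOn f M.D) : Integrable (fun z => (χ z : ℂ) * f z) := by
  have h1 : Continuous (fun z => (χ z : ℂ) * f z) := by
    rw [continuous_iff_continuousAt]
    intro z
    by_cases hz : z ∈ M.D
    · exact (Complex.continuous_ofReal.comp hχ.cont).continuousAt.mul (hf.continuousAt (M.isOpen.mem_nhds hz))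
    · have h2 : z ∈ (tsupport χ)ᶜ := fun h => hz (hχ.supp h)
      have h3 : (fun z => (χ z : ℂ) * f z) =ᶠ[nhds z] fun _ => 0 := by
        filter_upwards [(isClosed_tsupport χ).isOpen_compl.mem_nhds h2] with w hw
        have h4 : χ w = 0 := by
          by_contra h5
          exact hw (subset_tsupport _ h5)
        rw [h4]
        simp
      exact h3.continuousAt
  refine h1.integrable_of_hasCompactSupport ?_
  refine HasCompactSupport.mul_right ?_
  exact hχ.cpt.comp_left (g := fun x : ℝ => (x : ℂ)) Complex.ofReal_zero

/-- **The class of `D / Γ → V / L` exists and is algebraic.** -/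
theorem exists_cls {T : AV} {k : ℕ} (M : CMan k) (w : (Fin k → ℂ) → T.V) (hw : IsMap M T w)
    (χ : (Fin k → ℂ) → ℝ) (hχ : IsWeight M χ) :
    ∃ c : Hlg T (2 * k), (∀ a : Fin (2 * k) → (T.V →ₗ[ℝ] ℂ), c a = ∫ z, (χ z : ℂ) * (fmat w a z).det) ∧
      Alg T (2 * k) c := by
  have hint : ∀ a, Integrable (fun z => (χ z : ℂ) * (fmat w a z).det) := fun a =>
    integrable_wt hχ (continuousOn_det M.isOpen hw.hol a)
  let c : Hlg T (2 * k) :=
    { toFun := fun a => ∫ z, (χ z : ℂ) * (fmat w a z).det
      map_update_add' := by
        intro inst a i x y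
        obtain rfl : inst = instDecidableEqFin _ := Subsingleton.elim _ _
        rw [← integral_add (hint _) (hint _)]
        refine integral_congr_ae (Filter.Eventually.of_forall fun z => ?_)
        simp only
        rw [fmat_update, fmat_update, fmat_update, ← mul_add, ← Matrix.det_updateRow_add]
        rfl
      map_update_smul' := by
        intro inst a i s x
        obtain rfl : inst = instDecidableEqFin _ := Subsingleton.elim _ _
        rw [smul_eq_mul, ← integral_const_mul]
        refine integral_congr_ae (Filter.Eventually.of_forall fun z => ?_)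
        have e : (fmat w (Function.update a i (s • x)) z).det = s * (fmat w (Function.update a i x) z).det := by
          rw [fmat_update, fmat_update, ← Matrix.det_updateRow_smul]
          rfl
        simp only
        rw [e]
        ring
      map_eq_zero_of_eq' := by
        intro a i j hij hne
        have h0 : ∀ z, (χ z : ℂ) * (fmat w a z).det = 0 := by
          intro z
          rw [Matrix.det_zero_of_row_eq hne, mul_zero]
          funext l
          show a i _ = a j _
          rw [hij]
        simp only [h0, integral_zero] }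
  refine ⟨c, fun a => rfl, ?_⟩
  exact Alg.geo M w hw χ hχ c fun a => rfl

end HC
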